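import Pool.Agent.Work.MP_102156_al.Hedge.Tree
import Pool.Agent.Work.MP_102156_al.Hedge.Conv

/-!
The torsion abelian groups `A` such that every periodic residually finite FC-group with
abelianisation `A` embeds in a restricted direct product of finite groups are exactly those that
are direct sums of cyclic groups modulo a countable subgroup.
-/

namespace Pool.Agent.Results.MP_102156_al.Forcing

open Pool.Agent.Work.MP_102156_al.Hedge

theorem result (A : Type) [AddCommGroup A] (hA : IsAddTorsion A) :
    (∀ (G : Type) [Group G],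
      IsMulTorsion G →
      (∀ g : G, {h : G | IsConj g h}.Finite) →
      (∀ g : G, g ≠ 1 → ∃ N : Subgroup G, N.Normal ∧ N.FiniteIndex ∧ g ∉ N) →
      Nonempty (Additive (Abelianization G) ≃+ A) →
      ∃ (I : Type) (H : I → Type) (_ : ∀ i, Group (H i)) (_ : ∀ i, Finite (H i))
        (f : G →* ∀ i, H i),
        Function.Injective f ∧ ∀ g : G, {i : I | f g i ≠ 1}.Finite) ↔
    ∃ A₀ : AddSubgroup A, Countable A₀ ∧
      ∃ (J : Type) (C : J → Type) (_ : ∀ j, AddCommGroup (C j)),
        (∀ j, IsAddCyclic (C j)) ∧ Nonempty (A ⧸ A₀ ≃+ Π₀ j, C j) :=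
  ⟨fun h => forward hA h, fun ⟨A₀, h1, J, C, _, h2, ⟨e⟩⟩ => backward A₀ h1 J C h2 e⟩

end Pool.Agent.Results.MP_102156_al.Forcing
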